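import Pool.Agent.L5helper32.GR.Defs

set_option autoImplicit false

open Finset MeasureTheory ProbabilityTheory

namespace Pool.Agent.L5helper58.GRRoots

open Pool.Agent.L5helper32.GR

theorem indep_forall' {ι Ω : Type} [MeasurableSpace Ω] {μ : Measure Ω} [IsProbabilityMeasure μ]
    {T : ι → Ω → ℕ} (hi : iIndepFun T μ) (R : Finset ι)
    (P : ι → ℕ → Prop) :
    μ.real {ω | ∀ i ∈ R, P i (T i ω)} = ∏ i ∈ R, μ.real {ω | P i (T i ω)} := by
  have h := hi.measure_inter_preimage_eq_mul R (sets := fun i => {t | P i t})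
    (fun i _ => MeasurableSet.of_discrete)
  have h1 : {ω | ∀ i ∈ R, P i (T i ω)} = ⋂ i ∈ R, T i ⁻¹' {t | P i t} := by
    ext ω; simp
  rw [h1, measureReal_def, h, ENNReal.toReal_prod]
  rfl

variable {Ω : Type} [MeasurableSpace Ω] {μ : Measure Ω} [IsProbabilityMeasure μ]
  {T : ℕ × ℕ → Ω → ℕ}

theorem prob_mem (h : Res μ T) (c : ℕ) {r : ℕ} (hr : r.Prime) (F : Finset ℕ) (hF : ∀ t ∈ F, t < r) :
    μ.real {ω | T (c, r) ω ∈ F} = (F.card : ℝ) / r := by
  have h1 : {ω | T (c, r) ω ∈ F} = ⋃ t ∈ F, {ω | T (c, r) ω = t} := by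
    ext ω; simp
  rw [h1, measureReal_biUnion_finset]
  · rw [Finset.sum_congr rfl (fun t ht => h.unif c r hr t (hF t ht))]
    simp [div_eq_mul_inv]
  · intro s _ t _ hst
    refine Set.disjoint_left.mpr ?_
    intro ω hs ht
    exact hst (hs.symm.trans ht)
  · intro t _
    exact h.meas (c, r) (MeasurableSet.singleton t)

theorem prob_root (h : Res μ T) (p c : ℕ) {r : ℕ} (hr : r.Prime) :
    μ.real {ω | Root p r (res T ω c r)} = (w p r : ℝ) / r := by
  have hr0 : (r : ℝ) ≠ 0 := by exact_mod_cast hr.pos.ne'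
  have hall : μ.real {ω | T (c, r) ω ∈ range r} = 1 := by
    rw [prob_mem h c hr (range r) (fun t ht => by simpa using ht), card_range, div_self hr0]
  have hms : MeasurableSet {ω | T (c, r) ω ∈ range r} :=
    h.meas (c, r) (MeasurableSet.of_discrete (s := {t | t ∈ range r}))
  have hae : ∀ᵐ ω ∂μ, T (c, r) ω ∈ range r := by
    refine (mem_ae_iff_prob_eq_one hms).mpr ?_
    rw [measureReal_def] at hall
    exact (ENNReal.toReal_eq_one_iff _).mp hall
  have h2 : μ.real {ω | Root p r (res T ω c r)}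
      = μ.real {ω | T (c, r) ω ∈ (range r).filter (fun t => Root p r t)} := by
    refine measureReal_congr ?_
    filter_upwards [hae] with ω hω
    refine propext ?_
    show Root p r (res T ω c r) ↔ T (c, r) ω ∈ (range r).filter (fun t => Root p r t)
    rw [Finset.mem_filter]
    exact ⟨fun hh => ⟨hω, hh⟩, fun hh => hh.2⟩
  rw [h2, prob_mem h c hr _ (fun t ht => by
    rw [Finset.mem_filter] at ht; simpa using ht.1)]
  rfl

theorem prob_none (h : Res μ T) (p c : ℕ) (R : Finset ℕ) (hR : ∀ r ∈ R, r.Prime) :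
    μ.real {ω | ∀ r ∈ R, ¬ Root p r (res T ω c r)} = ∏ r ∈ R, (1 - (w p r : ℝ) / r) := by
  classical
  have hinj : Set.InjOn (fun r : ℕ => (c, r)) (R : Set ℕ) := by
    intro a _ b _ hab
    exact (Prod.mk.inj hab).2
  have h1 := indep_forall' (μ := μ) h.indep (R.image (fun r => (c, r)))
    (fun i t => ¬ Root p i.2 t)
  rw [Finset.prod_image hinj] at h1
  have h2 : {ω | ∀ r ∈ R, ¬ Root p r (res T ω c r)}
      = {ω | ∀ i ∈ R.image (fun r => (c, r)), ¬ Root p i.2 (T i ω)} := by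
    ext ω; simp [res]
  rw [h2, h1]
  refine Finset.prod_congr rfl (fun r hr => ?_)
  have h3 := prob_root h p c (hR r hr)
  have h4 : MeasurableSet {ω | Root p r (res T ω c r)} :=
    h.meas (c, r) (MeasurableSet.of_discrete (s := {t | Root p r t}))
  have h5 := probReal_compl_eq_one_sub (μ := μ) h4
  rw [h3] at h5
  exact h5

theorem prob_all (h : Res μ T) (p c : ℕ) (R : Finset ℕ) (hR : ∀ r ∈ R, r.Prime) :
    μ.real {ω | ∀ r ∈ R, Root p r (res T ω c r)} = ∏ r ∈ R, ((w p r : ℝ) / r) := by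
  classical
  have hinj : Set.InjOn (fun r : ℕ => (c, r)) (R : Set ℕ) := by
    intro a _ b _ hab
    exact (Prod.mk.inj hab).2
  have h1 := indep_forall' (μ := μ) h.indep (R.image (fun r => (c, r)))
    (fun i t => Root p i.2 t)
  rw [Finset.prod_image hinj] at h1
  have h2 : {ω | ∀ r ∈ R, Root p r (res T ω c r)}
      = {ω | ∀ i ∈ R.image (fun r => (c, r)), Root p i.2 (T i ω)} := by
    ext ω; simp [res]
  rw [h2, h1]
  exact Finset.prod_congr rfl (fun r hr => prob_root h p c (hR r hr))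

theorem prob_gap (h : Res μ T) (p c a b : ℕ) :
    μ.real {ω | (∀ r ∈ pr 0 a, ¬ Root p r (res T ω c r)) ∧ ∃ r ∈ pr a b, Root p r (res T ω c r)}
      = sg p 0 a * (1 - sg p a b) := by
  classical
  have hpr : ∀ x y : ℕ, ∀ r ∈ pr x y, r.Prime := by
    intro x y r hr
    exact (Finset.mem_filter.mp hr).2
  have hdis : Disjoint (pr 0 a) (pr a b) := by
    rw [Finset.disjoint_left]
    intro r h1 h2
    have h3 := (Finset.mem_Ioc.mp (Finset.mem_filter.mp h1).1).2
    have h4 := (Finset.mem_Ioc.mp (Finset.mem_filter.mp h2).1).1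
    omega
  have hA : μ.real {ω | ∀ r ∈ pr 0 a, ¬ Root p r (res T ω c r)} = sg p 0 a :=
    prob_none h p c (pr 0 a) (hpr 0 a)
  have hAB : μ.real {ω | ∀ r ∈ pr 0 a ∪ pr a b, ¬ Root p r (res T ω c r)}
      = sg p 0 a * sg p a b := by
    rw [prob_none h p c (pr 0 a ∪ pr a b) (by
      intro r hr
      rcases Finset.mem_union.mp hr with h1 | h1
      · exact hpr _ _ r h1
      · exact hpr _ _ r h1), Finset.prod_union hdis]
    rfl
  have hm : ∀ R : Finset ℕ, MeasurableSet {ω | ∀ r ∈ R, ¬ Root p r (res T ω c r)} := by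
    intro R
    have : {ω | ∀ r ∈ R, ¬ Root p r (res T ω c r)}
        = ⋂ r ∈ R, (T (c, r)) ⁻¹' {t | ¬ Root p r t} := by
      ext ω; simp [res]
    rw [this]
    exact Finset.measurableSet_biInter R (fun r _ => h.meas (c, r) MeasurableSet.of_discrete)
  have hset : {ω | (∀ r ∈ pr 0 a, ¬ Root p r (res T ω c r)) ∧
      ∃ r ∈ pr a b, Root p r (res T ω c r)}
      = {ω | ∀ r ∈ pr 0 a, ¬ Root p r (res T ω c r)} \
        {ω | ∀ r ∈ pr 0 a ∪ pr a b, ¬ Root p r (res T ω c r)} := by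
    ext ω
    constructor
    · rintro ⟨h1, r, hr, h2⟩
      exact ⟨h1, fun h3 => h3 r (Finset.mem_union_right _ hr) h2⟩
    · rintro ⟨h1, h2⟩
      refine ⟨h1, ?_⟩
      by_contra h3
      push Not at h3
      refine h2 (fun r hr => ?_)
      rcases Finset.mem_union.mp hr with h4 | h4
      · exact h1 r h4
      · exact h3 r h4
  have hsub : {ω | ∀ r ∈ pr 0 a ∪ pr a b, ¬ Root p r (res T ω c r)}
      ⊆ {ω | ∀ r ∈ pr 0 a, ¬ Root p r (res T ω c r)} :=
    fun ω hω r hr => hω r (Finset.mem_union_left _ hr)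
  rw [hset, measureReal_sdiff hsub (hm _), hA, hAB]
  ring

end Pool.Agent.L5helper58.GRRoots
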