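import Pool.Agent.L5helper32.GP.Defs
import Pool.Agent.L5helper58.GRRoots

set_option autoImplicit false

open Finset MeasureTheory ProbabilityTheory

namespace Pool.Agent.L5helper32.GP

open Pool.Agent.L5helper32.GR (Root w pr sg Dep lev q)

variable {Ω : Type} [MeasurableSpace Ω] {μ : Measure Ω} [IsProbabilityMeasure μ]
  {T : ℕ × ℕ × ℕ → Ω → ℕ}

omit [IsProbabilityMeasure μ] in
/-- The digits at one place. -/
theorem Res.place (h : Res μ T) (k : ℕ) :
    GR.Res μ (fun i : ℕ × ℕ => T (i.1, i.2, k)) where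
  meas := fun i => h.meas _
  indep := by
    have hinj : Function.Injective (fun i : ℕ × ℕ => ((i.1, i.2, k) : ℕ × ℕ × ℕ)) := by
      intro a b hab
      have h1 := (Prod.mk.inj hab).1
      have h2 := (Prod.mk.inj (Prod.mk.inj hab).2).1
      exact Prod.ext h1 h2
    exact h.indep.precomp hinj
  unif := fun c r hr t ht => h.unif c r k hr t ht

omit [IsProbabilityMeasure μ] in
/-- The first digits. -/
theorem Res.zero (h : Res μ T) : GR.Res μ (fun i : ℕ × ℕ => T (i.1, i.2, 0)) :=
  h.place 0

/-- The digits of a number are unique. -/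
theorem digits_unique {r : ℕ} (hr : 0 < r) : ∀ (v : ℕ) (d : ℕ → ℕ) (t : ℕ), t < r ^ v →
    (∀ i < v, d i < r) →
    (∑ i ∈ range v, d i * r ^ i = t ↔ ∀ i < v, d i = t / r ^ i % r) := by
  intro v
  induction v with
  | zero =>
    intro d t ht _
    have ht0 : t = 0 := by simpa using ht
    simp [ht0]
  | succ v ih =>
    intro d t ht hd
    have ht' : t / r < r ^ v := by
      rw [Nat.div_lt_iff_lt_mul hr]
      rwa [← pow_succ]
    have h1 := ih (fun i => d (i + 1)) (t / r) ht' (fun i hi => hd (i + 1) (by omega))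
    have h2 : ∑ i ∈ range (v + 1), d i * r ^ i
        = r * (∑ i ∈ range v, d (i + 1) * r ^ i) + d 0 := by
      rw [Finset.sum_range_succ', Finset.mul_sum]
      congr 1
      · refine Finset.sum_congr rfl (fun i _ => ?_)
        rw [pow_succ]; ring
      · simp
    have h0 : d 0 < r := hd 0 (by omega)
    rw [h2]
    constructor
    · intro h3
      have h4 : d 0 = t % r := by
        rw [← h3, Nat.mul_add_mod, Nat.mod_eq_of_lt h0]
      have h5 : ∑ i ∈ range v, d (i + 1) * r ^ i = t / r := by
        rw [← h3, Nat.mul_add_div hr, Nat.div_eq_of_lt h0, add_zero]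
      intro i hi
      rcases i with _ | i
      · simpa using h4
      · have h6 := h1.mp h5 i (by omega)
        rw [h6, Nat.div_div_eq_div_mul, ← pow_succ']
    · intro h3
      have h4 : d 0 = t % r := by simpa using h3 0 (by omega)
      have h5 : ∑ i ∈ range v, d (i + 1) * r ^ i = t / r := by
        refine h1.mpr (fun i hi => ?_)
        rw [h3 (i + 1) (by omega), Nat.div_div_eq_div_mul, ← pow_succ']
      rw [h4, h5]
      exact Nat.div_add_mod t r

/-- The number with `v` random digits is uniform modulo `r ^ v`. -/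
theorem prob_tr (h : Res μ T) (c v : ℕ) {r : ℕ} (hr : r.Prime) {t : ℕ} (ht : t < r ^ v) :
    μ.real {ω | tr (res T ω c) r v = t} = 1 / (r : ℝ) ^ v := by
  classical
  have hr0 : (r : ℝ) ≠ 0 := by exact_mod_cast hr.pos.ne'
  have hdig : ∀ k : ℕ, ∀ᵐ ω ∂μ, T (c, r, k) ω < r := by
    intro k
    have hall : μ.real {ω | T (c, r, k) ω ∈ range r} = 1 := by
      have h1 := Pool.Agent.L5helper58.GRRoots.prob_mem (h.place k) c hr (range r)
        (fun t ht => by simpa using ht)
      rw [card_range, div_self hr0] at h1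
      exact h1
    have hms : MeasurableSet {ω | T (c, r, k) ω ∈ range r} :=
      h.meas (c, r, k) (MeasurableSet.of_discrete (s := {t | t ∈ range r}))
    have hae : ∀ᵐ ω ∂μ, T (c, r, k) ω ∈ range r := by
      refine (mem_ae_iff_prob_eq_one hms).mpr ?_
      rw [measureReal_def] at hall
      exact (ENNReal.toReal_eq_one_iff _).mp hall
    filter_upwards [hae] with ω hω
    exact Finset.mem_range.mp hω
  have hall : ∀ᵐ ω ∂μ, ∀ k : ℕ, T (c, r, k) ω < r := ae_all_iff.mpr hdig
  have h2 : μ.real {ω | tr (res T ω c) r v = t}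
      = μ.real {ω | ∀ i ∈ range v, T (c, r, i) ω = t / r ^ i % r} := by
    refine measureReal_congr ?_
    filter_upwards [hall] with ω hω
    refine propext ?_
    show tr (res T ω c) r v = t ↔ ∀ i ∈ range v, T (c, r, i) ω = t / r ^ i % r
    have h3 := digits_unique hr.pos v (fun i => T (c, r, i) ω) t ht (fun i _ => hω i)
    unfold tr res
    rw [h3]
    simp
  have hinj : Set.InjOn (fun i : ℕ => ((c, r, i) : ℕ × ℕ × ℕ)) ((range v : Finset ℕ) : Set ℕ) := by
    intro a _ b _ hab
    exact (Prod.mk.inj (Prod.mk.inj hab).2).2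
  have h3 := Pool.Agent.L5helper58.GRRoots.indep_forall' (μ := μ) h.indep
    ((range v).image (fun i => ((c, r, i) : ℕ × ℕ × ℕ)))
    (fun j x => x = t / r ^ j.2.2 % r)
  rw [Finset.prod_image hinj] at h3
  have h4 : {ω | ∀ i ∈ range v, T (c, r, i) ω = t / r ^ i % r}
      = {ω | ∀ j ∈ (range v).image (fun i => ((c, r, i) : ℕ × ℕ × ℕ)),
          T j ω = t / r ^ j.2.2 % r} := by
    ext ω; simp
  rw [h2, h4, h3]
  rw [Finset.prod_congr rfl (fun i _ => h.unif c r i hr (t / r ^ i % r) (Nat.mod_lt _ hr.pos))]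
  rw [Finset.prod_const, card_range, one_div, one_div, inv_pow]

end Pool.Agent.L5helper32.GP
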